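import Pool.Agent.W295.PR.Stm

/-!
# Project PR, piece FIN1: `⟨a, σ^k⟩` acts minimally
-/

set_option autoImplicit false

open Topology Set

namespace Pool.Agent.W863.PR.FIN1

open Pool.Agent.W295.PR

section
variable {G : Type} [Group G] [TopologicalSpace G] [IsTopologicalGroup G]

theorem smul_cont {H : Subgroup G} (g : G) : Continuous (fun x : G ⧸ H => g • x) :=
  continuous_const_smul g

theorem sg_cont (N : Nil G) (D : ℕ) (e : ℤ) {H : Subgroup G} :
    Continuous (sg N D e : (RR D → G ⧸ H) → (RR D → G ⧸ H)) := by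
  refine continuous_pi fun q => ?_
  exact (smul_cont (N.a ^ (ev D e q))).comp (continuous_apply (tau D e q))

theorem sg_sg (h3 : S_EV) (N : Nil G) (D : ℕ) (e f : ℤ) {H : Subgroup G} (y : RR D → G ⧸ H) :
    sg N D e (sg N D f y) = sg N D (e + f) y := by
  funext q
  unfold sg
  rw [(h3 D e f q q).1, ← mul_smul, ← zpow_add, (h3 D f e q q).2.1]
  congr 2
  · ring
  · rw [add_comm f e]

theorem sg_zero (h3 : S_EV) (N : Nil G) (D : ℕ) {H : Subgroup G} (y : RR D → G ⧸ H) :
    sg N D 0 y = y := by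
  funext q
  unfold sg
  rw [(h3 D 0 0 q q).2.2.1, (h3 D 0 0 q q).2.2.2.2.2.2.2]
  simp

theorem sg_A (N : Nil G) (D : ℕ) (e : ℤ) {H : Subgroup G} (y : RR D → G ⧸ H) (m : ℤ) :
    sg N D e (fun q => N.a ^ m • y q) = fun q => N.a ^ m • sg N D e y q := by
  funext q
  unfold sg
  rw [← mul_smul, ← mul_smul, ← zpow_add, ← zpow_add, add_comm]

omit [TopologicalSpace G] [IsTopologicalGroup G] in
theorem act_act {D : ℕ} {H : Subgroup G} (f g : RR D → G) (y : RR D → G ⧸ H) :
    act f (act g y) = act (f * g) y := by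
  funext q
  simp [act, mul_smul]

theorem mk_eq (N : Nil G) (x y : G) (h : y⁻¹ * x ∈ N.Γ) : x • ((1 : G) : G ⧸ N.Γ) = ((y : G) : G ⧸ N.Γ) := by
  rw [MulAction.Quotient.smul_coe, smul_eq_mul, mul_one]
  exact (QuotientGroup.eq.mpr h).symm

theorem Om_sg (h2 : S_PPn) (N : Nil G) (D : ℕ) (e : ℤ) (y : RR D → G ⧸ N.Γ)
    (hy : y ∈ Om N N.Γ D) : sg N D e y ∈ Om N N.Γ D := by
  refine map_mem_closure (sg_cont N D e) hy ?_
  rintro _ ⟨f, hf, rfl⟩
  refine ⟨cj N D e f * gpp N D e 1 1 N.g0⁻¹, ?_, ?_⟩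
  · refine Subgroup.mul_mem _ ((h2 G N D).1 e f hf) (Subgroup.subset_closure ?_)
    exact ⟨e, 1, 1, N.g0⁻¹, one_mem _, one_mem _, inv_mem N.g0_mem, rfl⟩
  · rw [← act_act]
    have h1 : act (gpp N D e 1 1 N.g0⁻¹) (w0 N.Γ D) = sg N D e (w0 N.Γ D) := by
      funext q
      simp only [act, w0, sg, gpp]
      rw [MulAction.Quotient.smul_coe, MulAction.Quotient.smul_coe, QuotientGroup.eq]
      simp only [smul_eq_mul, mul_one, one_mul, mul_inv_rev, inv_inv]
      rw [inv_mul_cancel_right]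
      exact zpow_mem N.gam_mem _
    rw [h1]
    funext q
    simp only [act, w0, sg, cj]
    rw [← mul_smul, ← mul_smul]
    congr 1
    group

theorem Om_A (h2 : S_PPn) (h3 : S_EV) (N : Nil G) (D : ℕ) (y : RR D → G ⧸ N.Γ)
    (hy : y ∈ Om N N.Γ D) : (fun q => N.a • y q) ∈ Om N N.Γ D := by
  have hc : Continuous (fun (y : RR D → G ⧸ N.Γ) (q : RR D) => N.a • y q) :=
    continuous_pi fun q => (smul_cont N.a).comp (continuous_apply q)
  refine map_mem_closure hc hy ?_
  rintro _ ⟨f, hf, rfl⟩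
  refine ⟨(fun q => N.a * f q * N.a⁻¹) * gpp N D 0 1 N.g0 1, ?_, ?_⟩
  · refine Subgroup.mul_mem _ ((h2 G N D).2.1 f hf) (Subgroup.subset_closure ?_)
    exact ⟨0, 1, N.g0, 1, one_mem _, N.g0_mem, one_mem _, rfl⟩
  · rw [← act_act]
    have h1 : act (gpp N D 0 1 N.g0 1) (w0 N.Γ D) = fun q => N.a • w0 N.Γ D q := by
      funext q
      simp only [act, w0, gpp]
      rw [(h3 D 0 0 q q).2.2.2.2.2.2.2, MulAction.Quotient.smul_coe, MulAction.Quotient.smul_coe,
        QuotientGroup.eq]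
      simp only [smul_eq_mul, mul_one, one_mul, zpow_zero, inv_one]
      exact N.gam_mem
    rw [h1]
    funext q
    simp only [act, w0]
    rw [← mul_smul, ← mul_smul]
    congr 1
    group

theorem Om_A' (h2 : S_PPn) (h3 : S_EV) (N : Nil G) (D : ℕ) (y : RR D → G ⧸ N.Γ)
    (hy : y ∈ Om N N.Γ D) : (fun q => N.a⁻¹ • y q) ∈ Om N N.Γ D := by
  have hc : Continuous (fun (y : RR D → G ⧸ N.Γ) (q : RR D) => N.a⁻¹ • y q) :=
    continuous_pi fun q => (smul_cont N.a⁻¹).comp (continuous_apply q)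
  have hn := N.normal
  have hx : N.a⁻¹ * N.g0⁻¹ * N.a ∈ N.G0 := by
    have := hn.conj_mem _ (inv_mem N.g0_mem) N.a⁻¹
    simpa using this
  refine map_mem_closure hc hy ?_
  rintro _ ⟨f, hf, rfl⟩
  refine ⟨(fun q => N.a⁻¹ * f q * N.a) * gpp N D 0 1 (N.a⁻¹ * N.g0⁻¹ * N.a) 1, ?_, ?_⟩
  · refine Subgroup.mul_mem _ ((h2 G N D).2.2.1 f hf) (Subgroup.subset_closure ?_)
    exact ⟨0, 1, _, 1, one_mem _, hx, one_mem _, rfl⟩
  · rw [← act_act]
    have h1 : act (gpp N D 0 1 (N.a⁻¹ * N.g0⁻¹ * N.a) 1) (w0 N.Γ D) = fun q => N.a⁻¹ • w0 N.Γ D q := by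
      funext q
      simp only [act, w0, gpp]
      rw [(h3 D 0 0 q q).2.2.2.2.2.2.2, MulAction.Quotient.smul_coe, MulAction.Quotient.smul_coe,
        QuotientGroup.eq]
      simp only [smul_eq_mul, mul_one, one_mul, zpow_zero, inv_one]
      have e : (N.a⁻¹ * N.g0⁻¹ * N.a)⁻¹ * N.a⁻¹ = (N.g0⁻¹ * N.a)⁻¹ := by group
      rw [e]
      exact inv_mem N.gam_mem
    rw [h1]
    funext q
    simp only [act, w0]
    rw [← mul_smul, ← mul_smul]
    congr 1
    group

theorem Om_conn (h1 : S_PPc) (N : Nil G) (D : ℕ) : IsPreconnected (Om N N.Γ D) := by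
  have e : {y : RR D → G ⧸ N.Γ | ∃ f ∈ PP N D, y = act f (w0 N.Γ D)} =
      (fun f : RR D → G => act f (w0 N.Γ D)) '' (PP N D : Set (RR D → G)) := by
    ext y
    constructor
    · rintro ⟨f, hf, rfl⟩
      exact ⟨f, hf, rfl⟩
    · rintro ⟨f, hf, rfl⟩
      exact ⟨f, hf, rfl⟩
  unfold Om
  rw [e]
  refine IsPreconnected.closure ((h1 G N D).image _ (Continuous.continuousOn ?_))
  refine continuous_pi fun q => ?_
  have : (fun f : RR D → G => act f (w0 N.Γ D) q) = fun f => ((f q : G) : G ⧸ N.Γ) := by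
    funext f
    simp only [act, w0]
    rw [MulAction.Quotient.smul_coe, smul_eq_mul, mul_one]
  rw [this]
  exact QuotientGroup.continuous_mk.comp (continuous_apply q)

end

theorem main (h1 : S_PPc) (h2 : S_PPn) (h3 : S_EV) : S_FIN1 := by
  intro G _ _ _ N D hT k hk F hFO hFc hFn hFA hFA' hFS hFS'
  have := N.compact
  -- invariance
  let Inv : Set (RR D → G ⧸ N.Γ) → Prop := fun M =>
    (∀ y ∈ M, (fun q => N.a • y q) ∈ M) ∧ (∀ y ∈ M, (fun q => N.a⁻¹ • y q) ∈ M) ∧
    (∀ y ∈ M, sg N D (k : ℤ) y ∈ M) ∧ (∀ y ∈ M, sg N D (-(k : ℤ)) y ∈ M)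
  let S : Set (Set (RR D → G ⧸ N.Γ)) := {M | M ⊆ F ∧ IsClosed M ∧ M.Nonempty ∧ Inv M}
  have hex : ∃ M, Minimal (· ∈ S) M := by
    refine zorn_superset S ?_
    intro c hcS hc
    rcases c.eq_empty_or_nonempty with hce | hcne
    · exact ⟨F, ⟨subset_rfl, hFc, hFn, hFA, hFA', hFS, hFS'⟩, by simp [hce]⟩
    · refine ⟨⋂₀ c, ⟨?_, ?_, ?_, ?_⟩, fun s hs => sInter_subset_of_mem hs⟩
      · obtain ⟨s, hs⟩ := hcne
        exact (sInter_subset_of_mem hs).trans (hcS hs).1
      · exact isClosed_sInter fun s hs => (hcS hs).2.1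
      · refine @IsCompact.nonempty_sInter_of_directed_nonempty_isCompact_isClosed _ _ c hcne.coe_sort ?_ ?_ ?_ ?_
        · intro s hs t ht
          rcases eq_or_ne s t with h | h
          · exact ⟨s, hs, subset_rfl, by rw [h]⟩
          · rcases hc hs ht h with h' | h'
            · exact ⟨s, hs, subset_rfl, h'⟩
            · exact ⟨t, ht, h', subset_rfl⟩
        · exact fun s hs => (hcS hs).2.2.1
        · exact fun s hs => (hcS hs).2.1.isCompact
        · exact fun s hs => (hcS hs).2.1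
      · refine ⟨?_, ?_, ?_, ?_⟩
        · exact fun y hy s hs => (hcS hs).2.2.2.1 y (hy s hs)
        · exact fun y hy s hs => (hcS hs).2.2.2.2.1 y (hy s hs)
        · exact fun y hy s hs => (hcS hs).2.2.2.2.2.1 y (hy s hs)
        · exact fun y hy s hs => (hcS hs).2.2.2.2.2.2 y (hy s hs)
  obtain ⟨M, hM⟩ := hex
  obtain ⟨hMF, hMc, hMn, iA, iA', iS, iS'⟩ := hM.prop
  have hmin : ∀ M' ⊆ M, IsClosed M' → M'.Nonempty → Inv M' → M ⊆ M' := by
    intro M' h a b c
    exact hM.le_of_le ⟨h.trans hMF, a, b, c⟩ h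
  -- the translates
  let T : ℤ → Set (RR D → G ⧸ N.Γ) := fun i => {y | sg N D (-i) y ∈ M}
  have Tc : ∀ i, IsClosed (T i) := fun i => hMc.preimage (sg_cont N D (-i))
  have T0 : T 0 = M := by
    ext y
    show sg N D (-0) y ∈ M ↔ y ∈ M
    rw [neg_zero, sg_zero h3]
  have Tk : ∀ i, T (i + k) = T i := by
    intro i
    ext y
    show sg N D (-(i + k)) y ∈ M ↔ sg N D (-i) y ∈ M
    constructor
    · intro h
      have := iS _ h
      rw [sg_sg h3] at this
      have e : (k : ℤ) + -(i + k) = -i := by ring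
      rwa [e] at this
    · intro h
      have := iS' _ h
      rw [sg_sg h3] at this
      have e : -(k : ℤ) + -i = -(i + k) := by ring
      rwa [e] at this
  have Tkm : ∀ (m : ℕ) i, T (i + m * k) = T i := by
    intro m
    induction m with
    | zero => intro i; simp
    | succ m ih =>
      intro i
      have e : i + ((m + 1 : ℕ) : ℤ) * k = (i + m * k) + k := by push_cast; ring
      rw [e, Tk, ih]
  have TS : ∀ i e y, y ∈ T i → sg N D e y ∈ T (i + e) := by
    intro i e y hy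
    show sg N D (-(i + e)) (sg N D e y) ∈ M
    rw [sg_sg h3]
    have e' : -(i + e) + e = -i := by ring
    rw [e']
    exact hy
  have TA : ∀ i y, y ∈ T i → (fun q => N.a • y q) ∈ T i := by
    intro i y hy
    show sg N D (-i) (fun q => N.a • y q) ∈ M
    have := sg_A N D (-i) y 1
    simp only [zpow_one] at this
    rw [this]
    exact iA _ hy
  have TA' : ∀ i y, y ∈ T i → (fun q => N.a⁻¹ • y q) ∈ T i := by
    intro i y hy
    show sg N D (-i) (fun q => N.a⁻¹ • y q) ∈ M
    have := sg_A N D (-i) y (-1)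
    simp only [zpow_neg_one] at this
    rw [this]
    exact iA' _ hy
  have TOm : ∀ i, T i ⊆ Om N N.Γ D := by
    intro i y hy
    have h := Om_sg h2 N D i _ (hFO (hMF hy))
    rw [sg_sg h3] at h
    have e : i + -i = 0 := by ring
    rwa [e, sg_zero h3] at h
  -- the union of the translates
  have hU : (⋃ i ∈ Finset.range k, T (i : ℤ)) = Om N N.Γ D := by
    have hall : ∀ (i : ℤ) y, y ∈ T i → y ∈ ⋃ i ∈ Finset.range k, T (i : ℤ) := by
      intro i y hy
      have hk' : (0 : ℤ) < k := by exact_mod_cast hk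
      have h0 := Int.emod_nonneg i hk'.ne'
      have h4 := Int.emod_lt_of_pos i hk'
      obtain ⟨r, hr⟩ := Int.eq_ofNat_of_zero_le h0
      have hrk : r < k := by
        rw [hr] at h4
        exact_mod_cast h4
      have hTr : T i = T (r : ℤ) := by
        have hi : i = r + (i / k) * k := by
          rw [← hr]
          have := Int.emod_add_mul_ediv i k
          linarith
        rcases le_total 0 (i / (k : ℤ)) with h5 | h5
        · obtain ⟨m, hm⟩ := Int.eq_ofNat_of_zero_le h5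
          rw [hi, hm]
          exact Tkm m _
        · obtain ⟨m, hm⟩ := Int.eq_ofNat_of_zero_le (neg_nonneg.mpr h5)
          have e : (r : ℤ) = i + m * k := by
            rw [← hm]
            linarith
          rw [e]
          exact (Tkm m _).symm
      rw [hTr] at hy
      simp only [mem_iUnion]
      exact ⟨r, Finset.mem_range.mpr hrk, hy⟩
    refine hT _ ?_ ?_ ?_ ?_ ?_ ?_ ?_
    · intro y hy
      simp only [mem_iUnion] at hy
      obtain ⟨i, _, hy⟩ := hy
      exact TOm _ hy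
    · exact isClosed_biUnion_finset fun i _ => Tc _
    · obtain ⟨y, hy⟩ := hMn
      exact ⟨y, hall 0 y (by rw [T0]; exact hy)⟩
    · intro y hy
      simp only [mem_iUnion] at hy
      obtain ⟨i, _, hy⟩ := hy
      exact hall i _ (TA _ _ hy)
    · intro y hy
      simp only [mem_iUnion] at hy
      obtain ⟨i, _, hy⟩ := hy
      exact hall i _ (TA' _ _ hy)
    · intro y hy
      simp only [mem_iUnion] at hy
      obtain ⟨i, _, hy⟩ := hy
      exact hall _ _ (TS _ 1 _ hy)
    · intro y hy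
      simp only [mem_iUnion] at hy
      obtain ⟨i, _, hy⟩ := hy
      exact hall _ _ (TS _ (-1) _ hy)
  -- two translates are equal or disjoint
  have heq : ∀ j : ℕ, (M ∩ T j).Nonempty → T j ⊆ M := by
    intro j hj
    have hsub : M ⊆ T j := by
      refine (hmin (M ∩ T j) inter_subset_left (hMc.inter (Tc _)) hj ?_).trans inter_subset_right
      refine ⟨?_, ?_, ?_, ?_⟩
      · exact fun y hy => ⟨iA _ hy.1, TA _ _ hy.2⟩
      · exact fun y hy => ⟨iA' _ hy.1, TA' _ _ hy.2⟩
      · refine fun y hy => ⟨iS _ hy.1, ?_⟩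
        rw [← Tk]
        exact TS _ _ _ hy.2
      · refine fun y hy => ⟨iS' _ hy.1, ?_⟩
        have h5 := TS _ (-(k : ℤ)) _ hy.2
        have h6 := Tk ((j : ℤ) + -(k : ℤ))
        have e : (j : ℤ) + -(k : ℤ) + k = j := by ring
        rw [e] at h6
        rw [h6]
        exact h5
    have hstep : ∀ i : ℤ, T i ⊆ T (i + j) := by
      intro i y hy
      have h5 : sg N D (-i) y ∈ T (j : ℤ) := hsub hy
      have h6 := TS _ i _ h5
      rw [sg_sg h3] at h6
      have e : i + -i = 0 := by ring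
      rw [e, sg_zero h3, add_comm] at h6
      exact h6
    have hchain : ∀ m : ℕ, T (j : ℤ) ⊆ T ((j : ℤ) + m * j) := by
      intro m
      induction m with
      | zero => simp
      | succ m ih =>
        refine ih.trans ?_
        have e : (j : ℤ) + ((m + 1 : ℕ) : ℤ) * j = ((j : ℤ) + m * j) + j := by push_cast; ring
        rw [e]
        exact hstep _
    have h5 := hchain (k - 1)
    have e : (j : ℤ) + ((k - 1 : ℕ) : ℤ) * j = 0 + (j : ℤ) * k := by
      have : ((k - 1 : ℕ) : ℤ) = (k : ℤ) - 1 := by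
        rw [Nat.cast_sub hk]
        simp
      rw [this]
      ring
    rw [e, Tkm, T0] at h5
    exact h5
  -- connectedness
  classical
  set V : Set (RR D → G ⧸ N.Γ) :=
    ⋃ i ∈ (Finset.range k).filter (fun i : ℕ => ¬ (M ∩ T (i : ℤ)).Nonempty), T (i : ℤ) with hV
  have hVc : IsClosed V := isClosed_biUnion_finset fun i _ => Tc _
  have hcov : Om N N.Γ D ⊆ M ∪ V := by
    intro y hy
    rw [← hU] at hy
    simp only [mem_iUnion] at hy
    obtain ⟨i, hi, hy⟩ := hy
    by_cases h : (M ∩ T (i : ℤ)).Nonempty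
    · exact Or.inl (heq i h hy)
    · refine Or.inr ?_
      rw [hV]
      simp only [mem_iUnion]
      exact ⟨i, Finset.mem_filter.mpr ⟨hi, h⟩, hy⟩
  have hdis : ¬ (Om N N.Γ D ∩ (M ∩ V)).Nonempty := by
    rintro ⟨y, _, hyM, hyV⟩
    rw [hV] at hyV
    simp only [mem_iUnion] at hyV
    obtain ⟨i, hi, hy⟩ := hyV
    exact (Finset.mem_filter.mp hi).2 ⟨y, hyM, hy⟩
  have hMO : M ⊆ Om N N.Γ D := hMF.trans hFO
  have hVe : ¬ (Om N N.Γ D ∩ V).Nonempty := by
    intro h
    apply hdis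
    refine isPreconnected_closed_iff.mp (Om_conn h1 N D) M V hMc hVc hcov ?_ h
    obtain ⟨y, hy⟩ := hMn
    exact ⟨y, hMO hy, hy⟩
  refine subset_antisymm hFO ?_
  intro y hy
  rcases hcov hy with h | h
  · exact hMF h
  · exact absurd ⟨y, hy, h⟩ hVe

end Pool.Agent.W863.PR.FIN1
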